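import Mathlib
import Pool.Agent.H326NC.Main

/-!
`NON × LLPO` is Weihrauch reducible to Ramsey's theorem for pairs, and this is the end of the line:
neither `NON × (LLPO × LLPO)` nor `NON × C_n` for any `n ≥ 3` (closed choice on `n` points) is
Weihrauch reducible to it.

The positive half is the theorem of the file `Full`. For the negative half, suppose that
`NON × P ≤_W RT²₂`, where from the instance `0^∞` of `P` one can, arbitrarily late, leave any one of
three answers as the only correct one. The colouring `c` attached to the pair `(0^∞, 0^∞)` is
computable and has no computable infinite homogeneous set, and the same holds after the late
change. So, for each of the three answers `v`, each finite homogeneous set on which the backward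
functional has committed itself to another answer must be killed after the change to `v`; the
colours then given to the points define a splitting of `ℕ` into two parts. The majority of three
splittings, one for each `v`, splits `ℕ` into a part without infinite homogeneous sets of colour 0
and a part without infinite homogeneous sets of colour 1. By Ramsey's theorem two such majorities
differ at finitely many points only, so they form a nonempty countable `Π⁰₁` class, which has a
computable member; and a computable part of this kind leads to a computable infinite homogeneous
set.
-/

namespace Pool.Agent.Results.MP_743c94_lc.ChoiceBoundary

open Pool.Agent.Results.MP_743c94_lc.Full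
open Pool.Agent.H326NC

/-- `NON × LLPO ≤_W RT²₂`, but `NON × (LLPO × LLPO)` and, for every `n ≥ 3`, `NON × C_n` are not
Weihrauch reducible to `RT²₂`. -/
theorem result : WeihrauchReducible (prod NON LLPO) RT22 ∧
    ¬ WeihrauchReducible (prod NON (prod LLPO LLPO)) RT22 ∧
    ∀ n, 3 ≤ n → ¬ WeihrauchReducible (prod NON (Choice n)) RT22 :=
  ⟨Full.result, llpo_sq_not, fun _ hn => choice_not hn⟩

end Pool.Agent.Results.MP_743c94_lc.ChoiceBoundary
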