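import Pool.Agent.Y579.NG.Two
import Pool.Agent.Y404.NG.Kleene
import Pool.Agent.Y235.NG.Three

/-!
`NON × LLPO` is Weihrauch reducible to Ramsey's theorem for pairs and two colours (the posed
question), and this is sharp: with two copies of `LLPO`, or with choice on three points, or with
two all-or-co-unique choices on finitely many points, instead of `LLPO`, it is not reducible to
it; with three colours two copies of `LLPO` are possible.

General criterion: a problem with a computable instance `z` without computable solutions, such
that any two solutions of `z` are refuted simultaneously (on the first `N` bits) by computable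
instances without computable solutions arbitrarily close to `z`, is not Weihrauch reducible to
Ramsey's theorem for pairs and two colours. In particular `NON × P × P'` is never reducible to it
when `P` and `P'` have refutable instances. Known cases: `NON × LPO` and weak Koenig's lemma.
-/

namespace Pool.Agent.Results.MP_743c94_lc.PairwiseRefutable

open Pool.Agent.Results.MP_743c94_lc.Full Pool.Agent.Y579.NG

theorem result :
    WeihrauchReducible (prod NON LLPO) RT22 ∧
    ¬ WeihrauchReducible (prod NON (prod LLPO LLPO)) RT22 ∧
    WeihrauchReducible (prod NON (prod LLPO LLPO)) RT23 ∧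
    (∀ k m : ℕ, 2 ≤ k → 2 ≤ m →
      ¬ WeihrauchReducible (prod NON (prod (ACC k) (ACC m))) RT22) ∧
    ¬ WeihrauchReducible (prod NON (Choice 3)) RT22 ∧
    (∀ (P P' : Problem) (z z' : ℕ → Bool) (N N' : ℕ), Refutable P z N → Refutable P' z' N' →
      ¬ WeihrauchReducible (prod NON (prod P P')) RT22) ∧
    (∀ (R : Problem) (z : ℕ → Bool) (N : ℕ), z ∈ R.dom → Computable z →
      (∀ q ∈ R.sol z, ¬ Computable q) →
      (∀ q ∈ R.sol z, ∀ q' ∈ R.sol z, ∀ s : ℕ, ∃ z' ∈ R.dom, Computable z' ∧
        (∀ i < s, z' i = z i) ∧ ∀ r ∈ R.sol z', ¬ Computable r ∧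
          pre r N ≠ pre q N ∧ pre r N ≠ pre q' N) →
      ¬ WeihrauchReducible R RT22) ∧
    ¬ WeihrauchReducible (prod NON LPO) RT22 ∧
    ¬ WeihrauchReducible WKL RT22 :=
  ⟨Full.result, neg_llpo, Pool.Agent.Y235.NG.t_THREE, fun _ _ hk hm => neg_acc hk hm, neg_choice,
    fun _ _ _ _ _ _ h h' => neg_two h h',
    fun _ _ N h1 h2 h3 h4 => criterion N h1 h2 h3 h4, neg_lpo,
    neg_wkl Pool.Agent.Y404.NG.t_KLEENE⟩

end Pool.Agent.Results.MP_743c94_lc.PairwiseRefutable
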