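import Pool.Agent.Y534.NL.Red

/-!
# `HYP × LLPO` is Weihrauch reducible to the stable ascending-descending-sequence principle

The starting result of this folder answers Q1: `NON × LLPO` is Weihrauch reducible to Ramsey's
theorem for pairs and two colours. We show that Ramsey's theorem can be replaced by the much weaker
stable ascending-descending-sequence principle `SADS` (linear orderings of type `ω + ω*`; in
particular by Ramsey's theorem for stable colourings), and that at the same time `NON` can be
replaced by `HYP`: the first component of the solution is hyperimmune relative to the first
component of the instance.

The ordering. The number `s` is inserted at stage `s` into the ordering of the smaller numbers. The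
numbers are divided into consecutive blocks; a closed block lies entirely on one side of the place
of insertion. The blocks `4 e` and `4 e + 1` are closed, on the left and on the right, as soon as
they contain the interval `[b, g b]` for the `e`-th function `g` computable from the oracle, `b`
the lower bound of the block; all blocks of higher index are then restarted. If `g` is total
and bounds the principal function of an infinite ascending or descending sequence, then this
sequence has elements in both blocks, a contradiction. The other blocks make the order type exactly
`ω + ω*`. The instance of `LLPO` is coded as in the starting result: if it has its `1` at `j`, then
all numbers after `j` are inserted above (`j` even) or below (`j` odd) all numbers up to `j`.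
-/

set_option autoImplicit false

namespace Pool.Agent.Results.MP_743c94_lc.StableOrders

open Pool.Agent.Results.MP_743c94_lc.Full (WeihrauchReducible prod NON LLPO RT22)
open Pool.Agent.Y534.NLO (HYP SADS SRT22)

/-- `HYP × LLPO` is Weihrauch reducible to the stable ascending-descending-sequence principle and to
Ramsey's theorem for stable colourings of pairs; in particular `NON × LLPO` is Weihrauch reducible
to the stable ascending-descending-sequence principle and to Ramsey's theorem for pairs (the
question Q1). -/
theorem result :
    WeihrauchReducible (prod HYP LLPO) SADS ∧ WeihrauchReducible (prod HYP LLPO) SRT22 ∧
      WeihrauchReducible (prod NON LLPO) SADS ∧ WeihrauchReducible (prod NON LLPO) RT22 :=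
  ⟨Y534.NLO.hyp_sads, Y534.NLO.hyp_srt, Y534.NLO.non_sads, Y534.NLO.non_rt⟩

end Pool.Agent.Results.MP_743c94_lc.StableOrders
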